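import Mathlib
import Pool.Agent.Helper18.Peb.Side
import Pool.Agent.Helper18.Peb.St.PB8
import Pool.Agent.Helper18.Peb.St.PB9a

set_option autoImplicit false

/-!
PB-9c: target in a star.
-/

namespace Pool.Agent.Helper93.PB

open Finset
open Pool.Agent.Helper18.Peb

variable {V S : Type} [Fintype V] [DecidableEq V] [Fintype S] [DecidableEq S]
  {G : SimpleGraph V} {z : S → V}

/-- a sum over a covered set -/
lemma sum_cover {ι κ : Type} [Fintype ι] [Fintype κ] (P : V → ℕ) (A : Finset V)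
    (B : ι → Finset V) (B' : κ → Finset V) (C C' : Finset V)
    (h : ∀ x ∈ A, (∃ i, x ∈ B i) ∨ (∃ i, x ∈ B' i) ∨ x ∈ C ∨ x ∈ C') :
    ∑ x ∈ A, P x ≤ ∑ i, ∑ x ∈ B i, P x + ∑ i, ∑ x ∈ B' i, P x + ∑ x ∈ C, P x
      + ∑ x ∈ C', P x := by
  have e : ∀ s : Finset V, ∑ x ∈ s, P x = ∑ x, if x ∈ s then P x else 0 := by
    intro s
    rw [Finset.sum_ite_mem, Finset.univ_inter]
  have e1 : ∑ i, ∑ x ∈ B i, P x = ∑ x, ∑ i, if x ∈ B i then P x else 0 := by
    rw [Finset.sum_comm]
    exact Finset.sum_congr rfl fun i _ => e (B i)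
  have e2 : ∑ i, ∑ x ∈ B' i, P x = ∑ x, ∑ i, if x ∈ B' i then P x else 0 := by
    rw [Finset.sum_comm]
    exact Finset.sum_congr rfl fun i _ => e (B' i)
  rw [e1, e2, e C, e C', e A, ← Finset.sum_add_distrib, ← Finset.sum_add_distrib,
    ← Finset.sum_add_distrib]
  apply Finset.sum_le_sum
  intro x _
  by_cases hx : x ∈ A
  · rw [if_pos hx]
    rcases h x hx with ⟨i, hi⟩ | ⟨i, hi⟩ | hi | hi
    · have h1 : (if x ∈ B i then P x else 0) ≤ ∑ i, if x ∈ B i then P x else 0 :=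
        Finset.single_le_sum (f := fun i => if x ∈ B i then P x else 0)
          (fun _ _ => Nat.zero_le _) (Finset.mem_univ i)
      rw [if_pos hi] at h1
      omega
    · have h1 : (if x ∈ B' i then P x else 0) ≤ ∑ i, if x ∈ B' i then P x else 0 :=
        Finset.single_le_sum (f := fun i => if x ∈ B' i then P x else 0)
          (fun _ _ => Nat.zero_le _) (Finset.mem_univ i)
      rw [if_pos hi] at h1
      omega
    · rw [if_pos hi]
      omega
    · rw [if_pos hi]
      omega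
  · rw [if_neg hx]
    exact Nat.zero_le _

/-- the content of a set close to a vertex which cannot get `k` pebbles -/
lemma content_lt (P : V → ℕ) (A : Finset V) (m k : ℕ) (r : V) (h : ∀ x ∈ A, Rch G m x r)
    (hA : #A ≤ 213003) (hk : ¬ Solvable G P (Pi.single r k)) :
    ∑ x ∈ A, P x ≤ 2 ^ m * k + 213003 * 2 ^ m := by
  have h1 := collect' P A m r h
  have h2 : ∑ x ∈ A, P x / 2 ^ m < k := by
    by_contra hc
    exact hk (h1.mono (le_refl _) (single_le_single (not_lt.1 hc)))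
  refine (content P A 213003 m hA).trans ?_
  gcongr

theorem case_star (D : Setup G z) (P : V → ℕ) (hP : (2 ^ 114 + 2 ^ 102) * (2 ^ 95 - 1) ≤ size P)
    (w : V) (σ : S) (hw : D.reg w = some σ) : Solvable G P (Pi.single w 2) := by
  classical
  by_contra hcon
  have hR : ∀ i, ¬ Solvable G P (Pi.single (D.R.gate i) (2 ^ 96)) := by
    intro i hi
    exact hcon (hi.trans ((D.hgate w σ i hw).1.solv (by norm_num)))
  have hC : ∀ i, ¬ Solvable G P (Pi.single (D.C.gate i) (2 ^ 96)) := by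
    intro i hi
    exact hcon (hi.trans ((D.hgate w σ i hw).2.solv (by norm_num)))
  have hRh : ¬ Solvable G P (Pi.single D.R.hub (2 ^ 200)) := by
    intro hi
    exact hR 0 (hi.trans ((D.R.down 0).solv (by norm_num)))
  have hCh : ¬ Solvable G P (Pi.single D.C.hub (2 ^ 200)) := by
    intro hi
    exact hC 0 (hi.trans ((D.C.down 0).solv (by norm_num)))
  -- the stars
  have hT : ∑ τ, tau D.reg P τ ≤ 1024 * 2 ^ 96 := by
    have h1 : ∀ i, ∑ τ with D.R.line τ = i, tau D.reg P τ ≤ 2 ^ 96 := by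
      intro i
      by_contra hc
      exact hR i (((solv_tau D P).trans (own_sum D.R (tau D.reg P) i)).mono (le_refl _)
        (single_le_single (not_le.1 hc).le))
    rw [← Finset.sum_fiberwise (s := Finset.univ) (g := D.R.line) (f := tau D.reg P)]
    calc ∑ i, ∑ τ with D.R.line τ = i, tau D.reg P τ ≤ ∑ _i : Fin 1024, 2 ^ 96 :=
          Finset.sum_le_sum fun i _ => h1 i
      _ = 1024 * 2 ^ 96 := by simp
  -- the core
  have hsub : ∀ (Q : V → Prop), #{x | D.reg x = none ∧ Q x} ≤ 213003 := by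
    intro Q
    refine (Finset.card_le_card ?_).trans D.hncore
    intro x hx
    simp only [Finset.mem_filter, Finset.mem_univ, true_and] at hx ⊢
    exact hx.1
  have hcov := sum_cover P {x | D.reg x = none}
    (fun i : Fin 1024 => {x | D.reg x = none ∧ Rch G 99 x (D.R.gate i)})
    (fun i : Fin 1024 => {x | D.reg x = none ∧ Rch G 99 x (D.C.gate i)})
    {x | D.reg x = none ∧ Rch G 5 x D.R.hub} {x | D.reg x = none ∧ Rch G 5 x D.C.hub} (by
      intro x hx
      simp only [Finset.mem_filter, Finset.mem_univ, true_and] at hx ⊢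
      rcases D.hcls x hx with ⟨i, hi⟩ | ⟨i, hi⟩ | hi | hi
      · exact Or.inl ⟨i, hx, hi.1⟩
      · exact Or.inr (Or.inl ⟨i, hx, hi.1⟩)
      · exact Or.inr (Or.inr (Or.inl ⟨hx, hi.1⟩))
      · exact Or.inr (Or.inr (Or.inr ⟨hx, hi.1⟩)))
  have b1 : ∀ i : Fin 1024, ∑ x with D.reg x = none ∧ Rch G 99 x (D.R.gate i), P x ≤
      2 ^ 99 * 2 ^ 96 + 213003 * 2 ^ 99 := fun i =>
    content_lt P _ 99 (2 ^ 96) (D.R.gate i) (fun x hx => ((Finset.mem_filter.1 hx).2).2)
      (hsub _) (hR i)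
  have b2 : ∀ i : Fin 1024, ∑ x with D.reg x = none ∧ Rch G 99 x (D.C.gate i), P x ≤
      2 ^ 99 * 2 ^ 96 + 213003 * 2 ^ 99 := fun i =>
    content_lt P _ 99 (2 ^ 96) (D.C.gate i) (fun x hx => ((Finset.mem_filter.1 hx).2).2)
      (hsub _) (hC i)
  have b3 : ∑ x with D.reg x = none ∧ Rch G 5 x D.R.hub, P x ≤
      2 ^ 5 * 2 ^ 200 + 213003 * 2 ^ 5 :=
    content_lt P _ 5 (2 ^ 200) D.R.hub (fun x hx => ((Finset.mem_filter.1 hx).2).2)
      (hsub _) hRh
  have b4 : ∑ x with D.reg x = none ∧ Rch G 5 x D.C.hub, P x ≤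
      2 ^ 5 * 2 ^ 200 + 213003 * 2 ^ 5 :=
    content_lt P _ 5 (2 ^ 200) D.C.hub (fun x hx => ((Finset.mem_filter.1 hx).2).2)
      (hsub _) hCh
  have c1 : ∑ i : Fin 1024, ∑ x with D.reg x = none ∧ Rch G 99 x (D.R.gate i), P x ≤
      1024 * (2 ^ 99 * 2 ^ 96 + 213003 * 2 ^ 99) := by
    refine (Finset.sum_le_sum fun i _ => b1 i).trans ?_
    rw [Finset.sum_const, Finset.card_univ, Fintype.card_fin, smul_eq_mul]
  have c2 : ∑ i : Fin 1024, ∑ x with D.reg x = none ∧ Rch G 99 x (D.C.gate i), P x ≤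
      1024 * (2 ^ 99 * 2 ^ 96 + 213003 * 2 ^ 99) := by
    refine (Finset.sum_le_sum fun i _ => b2 i).trans ?_
    rw [Finset.sum_const, Finset.card_univ, Fintype.card_fin, smul_eq_mul]
  have hst := star_ineq D P
  unfold coreSum at hst
  norm_num at hP hT hst c1 c2 b3 b4
  omega

end Pool.Agent.Helper93.PB
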